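import Pool.Agent.H.MP_7acacd_co.C

set_option autoImplicit false
open Equiv

namespace Pool.Agent.Results.MP_7acacd_co.Yes

/-- The Hertzsprung pattern σ occurs in π. -/
def Occurs {k n : ℕ} (σ : Perm (Fin k)) (π : Perm (Fin n)) : Prop :=
  ∃ (i : ℕ) (d : ℤ), ∀ j : Fin k, ∃ h : i + j < n, ((π ⟨i + j, h⟩ : ℕ) : ℤ) = (σ j : ℕ) + d

/-- The number of permutations of size n avoiding σ. -/
noncomputable def av {k : ℕ} (σ : Perm (Fin k)) (n : ℕ) : ℕ :=
  Nat.card {π : Perm (Fin n) // ¬ Occurs σ π}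

/-- The number of Wilf classes of patterns of size k. -/
noncomputable def a (k : ℕ) : ℕ :=
  Nat.card (Quotient (Setoid.ker fun (σ : Perm (Fin k)) (n : ℕ) => av σ n))

/-- The lengths of the nonempty palindromic initial segments of w. -/
def P (w : List Bool) : Set ℕ := {i | 1 ≤ i ∧ i ≤ w.length ∧ (w.take i).Palindrome}

/-- The number of distinct sets P w over binary palindromes w of length k. -/
noncomputable def b (k : ℕ) : ℕ := (P '' {w | w.length = k ∧ w.Palindrome}).ncard

theorem result (k : ℕ) (hk : 3 ≤ k) : a k = b (k + 1) := by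
  classical
  have e : (fun (σ : Perm (Fin k)) (n : ℕ) => av σ n) = fun σ n =>
      Pool.Agent.H.MP_7acacd_co.avs (Pool.Agent.H.MP_7acacd_co.ext σ) k n := by
    funext σ n
    rw [av, Pool.Agent.H.MP_7acacd_co.avs, Nat.card_eq_fintype_card, Fintype.card_subtype]
    congr 1
    refine Finset.filter_congr fun π _ => ?_
    rw [← not_exists]
    refine not_congr (exists_congr fun i => ⟨?_, ?_⟩)
    · rintro ⟨d, h⟩
      obtain ⟨h1, -⟩ := h ⟨k - 1, by omega⟩
      simp only at h1
      refine ⟨by omega, d, fun j hj => ?_⟩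
      obtain ⟨h2, h3⟩ := h ⟨j, hj⟩
      rw [Pool.Agent.H.MP_7acacd_co.ext_lt _ h2, Pool.Agent.H.MP_7acacd_co.ext_lt _ hj]
      exact h3
    · rintro ⟨h1, d, h⟩
      refine ⟨d, fun j => ⟨by omega, ?_⟩⟩
      have := h j j.2
      rwa [Pool.Agent.H.MP_7acacd_co.ext_lt _ (by omega),
        Pool.Agent.H.MP_7acacd_co.ext_lt _ j.2] at this
  rw [a, Nat.card_congr (Setoid.quotientKerEquivRange _), Nat.card_coe_set_eq, e,
    Pool.Agent.H.MP_7acacd_co.main hk]
  rfl

end Pool.Agent.Results.MP_7acacd_co.Yes
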